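import Mathlib
import Pool.Agent.H274.Iso4

/-!
# Generic cuspidal representations of classical groups: large and small traces balance at every scale

Let `Π_t`, `t ∈ T` (`T` finite), be isobaric sums of unitary cuspidal representations, `Π_t` of `GL_{n_t}` over `ℚ`, for
example the functorial lifts of globally generic cuspidal representations of quasi-split classical groups over `ℚ`,
unramified outside the finite set `S` of primes. Let `α_{t,i,p}` be the Satake parameters, `r_t` the order of the pole of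
`L(s, Π_t × Π_t~)` at `s = 1`, `R = ∑ r_t`, and `W(p^k) = ∑_t |∑_i α_{t,i,p}^k|²` (its mean value over the primes is
`R`). We compare, at every scale, the *excess* and the *deficiency*

  `E(X) = ∑_{p^k ≤ X} max(0, W(p^k) - R)`,  `D(X) = ∑_{p^k ≤ X} max(0, R - W(p^k))`.

Violations of the Ramanujan conjecture produce excess: if `|α_{t,i,p}| = p^θ`, `θ > 0`, then `E(X)` is at least of order
`X^{2θ}` along the powers of `p`. Let `b` be the least upper bound of the real parts of the zeros and poles of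
`∏_t L(s, Π_t × Π_t~) / ζ(s)^R` (without the Euler factors in `S`); `1/2 ≤ b ≤ 1`. For every `ε > 0` and **all** large
`X`:

* `X^{b-ε} ≤ D(X)`;
* `E(X) ≤ X^ε D(X^{1+ε})`;
* `D(X) ≤ X^ε (X^b + E(X^{1+ε}))`.

So, up to factors `X^{o(1)}` and changes of the exponents by `o(1)`, the deficiency is at every scale the larger one of
`X^b` and the excess: **apart from the term `X^b`, which is prescribed by the zeros and poles, there are at each scale
exactly as many small traces as the large traces require.** In particular, if the deficiency is at most `X_j^{c+o(1)}`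
along some sequence of scales `X_j → ∞`, then `b ≤ c`, and all bounds `θ ≤ c/2` hold.

Known before: `X^c` for `D(X)`, `c < 1/2` or `c` below some of the exponents in `TemperedEveryScale`,
`IsobaricEveryScale`; the second inequality for one cuspidal representation of `GL_3` (`MP_8410ab_nt.TemperedMajority`,
over number fields). New are the upper bound for the deficiency (in all cases), and the second
inequality for `n ≥ 4`, for isobaric sums (`r > 1`) and families.

The structure `IsobaricRep` (from `IsobaricEveryScale`) lists what is used of `Π_t`; all of it is known if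
`Π_i ≅ Π_j ⊗ |det|^{iu}` only for `u = 0`, where the `Π_i` are the cuspidal constituents.

The proof: let `log ∏_t L(s, Π_t × Π_t~) / ζ(s)^R = ∑ d(q) q^{-s}`, `d(p^k) = (W(p^k) - R) / k`. The explicit formula with
the weight `exp(-(log q - Y)² / 4 η Y)` at a real point `σ` slightly to the right of `b` shows that the sums of the
positive and of the negative `d(q)` with `log q` near `Y` differ by at most `exp(σ Y)`; used for `d` it bounds the
excess, used for `-d` (the reciprocal function) it bounds the deficiency. To the left of `b` the formula shows that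
the negative ones contribute at least `exp((b - ε) Y)`.
-/

set_option autoImplicit false

namespace Pool.Agent.Results.MP_08cfa9_nt.ExcessDeficiencyLaw

open Pool.Agent.W189.TP (PS)
open Pool.Agent.H274.Iso (IsobaricRep SingD WT)

open scoped Classical in
/-- `E(X) = ∑_{p^k ≤ X} max(0, W(p^k) - R)`, `p ∉ S`, `k ≥ 1` -/
noncomputable def excess {T : Type*} [Fintype T] {n : T → ℕ} {S : Finset Nat.Primes}
    (α : ∀ t, PS S → Fin (n t) → ℂ) (R : ℕ) (X : ℝ) : ℝ :=
  ∑' x : PS S × ℕ, if ((x.1.1 : ℕ) : ℝ) ^ (x.2 + 1) ≤ X then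
    max 0 (∑ t, ‖∑ i, α t x.1 i ^ (x.2 + 1)‖ ^ 2 - R) else 0

open scoped Classical in
/-- `D(X) = ∑_{p^k ≤ X} max(0, R - W(p^k))`, `p ∉ S`, `k ≥ 1` -/
noncomputable def deficiency {T : Type*} [Fintype T] {n : T → ℕ} {S : Finset Nat.Primes}
    (α : ∀ t, PS S → Fin (n t) → ℂ) (R : ℕ) (X : ℝ) : ℝ :=
  ∑' x : PS S × ℕ, if ((x.1.1 : ℕ) : ℝ) ^ (x.2 + 1) ≤ X then
    max 0 (R - ∑ t, ‖∑ i, α t x.1 i ^ (x.2 + 1)‖ ^ 2) else 0

/-- **Excess and deficiency at every scale.** `SingD R (WT α) c` says that `∏_t L(s, Π_t × Π_t~) / ζ(s)^R`, without the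
Euler factors in `S`, has a zero or a pole of real part `> c`. -/
theorem result {T : Type*} [Fintype T] [Nonempty T] {n r : T → ℕ} {S : Finset Nat.Primes}
    {α : ∀ t, PS S → Fin (n t) → ℂ} {β : ∀ t, Nat.Primes → Fin (n t ^ 2) → ℂ}
    {κ : ∀ t, Fin (n t ^ 2 - r t) → ℂ} (h : ∀ t, IsobaricRep (r t) S (α t) (β t) (κ t))
    (hn : ∀ t, r t < n t ^ 2) :
    ∃ b : ℝ, 1 / 2 ≤ b ∧ b ≤ 1 ∧ (∀ c : ℝ, SingD (∑ t, r t) (WT α) c ↔ c < b) ∧
    ∀ ε : ℝ, 0 < ε → ∃ X₀ : ℝ, ∀ X : ℝ, X₀ ≤ X →
      X ^ (b - ε) ≤ deficiency α (∑ t, r t) X ∧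
      excess α (∑ t, r t) X ≤ X ^ ε * deficiency α (∑ t, r t) (X ^ (1 + ε)) ∧
      deficiency α (∑ t, r t) X ≤ X ^ ε * (X ^ b + excess α (∑ t, r t) (X ^ (1 + ε))) := by
  classical
  obtain ⟨M, ⟨eM⟩⟩ : ∃ M : ℕ, Nonempty (Fin M ≃ Σ t, Fin (n t ^ 2)) := ⟨_, ⟨(Fintype.equivFin _).symm⟩⟩
  obtain ⟨N, ⟨eN⟩⟩ : ∃ N : ℕ, Nonempty (Fin N ≃ Σ t, Fin (n t ^ 2 - r t)) := ⟨_, ⟨(Fintype.equivFin _).symm⟩⟩
  have hN : 1 ≤ N := by
    obtain ⟨t⟩ := ‹Nonempty T›
    have h1 := hn t
    exact (eN.symm ⟨t, ⟨0, by omega⟩⟩).pos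
  obtain ⟨b, hb2, hb1, hbS, hlaw⟩ := Pool.Agent.H274.Iso.law hN (Pool.Agent.H274.Iso.dat_fam h eM eN)
  have hE : ∀ X : ℝ, 0 < X → excess α (∑ t, r t) X =
      Pool.Agent.H274.Iso.ExcY (∑ t, r t) (WT α) (Real.log X) := by
    intro X hX
    unfold excess Pool.Agent.H274.Iso.ExcY Pool.Agent.Y816.GL3T.SS WT
    refine tsum_congr fun x => ?_
    simp only [Pool.Agent.TH949.TX.LL_le hX]
  have hD : ∀ X : ℝ, 0 < X → deficiency α (∑ t, r t) X =
      Pool.Agent.H274.Iso.DefY (∑ t, r t) (WT α) (Real.log X) := by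
    intro X hX
    unfold deficiency Pool.Agent.H274.Iso.DefY Pool.Agent.Y816.GL3T.SS WT
    refine tsum_congr fun x => ?_
    simp only [Pool.Agent.TH949.TX.LL_le hX]
  refine ⟨b, hb2, hb1, hbS, fun ε hε => ?_⟩
  refine Filter.eventually_atTop.1 ?_
  filter_upwards [Real.tendsto_log_atTop.eventually (hlaw ε hε), Filter.eventually_gt_atTop 0] with X hX hX0
  have e1 : ∀ c : ℝ, Real.exp (c * Real.log X) = X ^ c := fun c => by
    rw [Real.rpow_def_of_pos hX0, mul_comm]
  have e2 : (1 + ε) * Real.log X = Real.log (X ^ (1 + ε)) := (Real.log_rpow hX0 _).symm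
  have hX1 : 0 < X ^ (1 + ε) := by positivity
  rw [e1, e1, e1, e2] at hX
  rw [hE X hX0, hE _ hX1, hD X hX0, hD _ hX1]
  exact hX

end Pool.Agent.Results.MP_08cfa9_nt.ExcessDeficiencyLaw
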