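import Mathlib
import Pool.Agent.V1213.GF.Fin

/-!
# The generic Ramanujan conjecture for `GL(4)` over number fields: unimodular Satake parameters and mean squares

Let `π` be a unitary cuspidal automorphic representation of `GL_4` over a number field `K` (every such `π` is
globally generic), unramified outside the finite set `S` of places, with Satake parameters `α_{v,1}, …, α_{v,4}`.
The component `π_v` is tempered iff `|α_{v,i}| = 1` for all `i`. By Kim's theorem the exterior square `∧² π` is an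
isobaric automorphic representation of `GL_6`; let `R` be the order of the pole of its Rankin-Selberg `L`-function
at `s = 1` (`R = 1` if `∧² π` is cuspidal, `R = 2` if `π` is the lift of a generic cuspidal representation of
`GSp_4` which is not endoscopic or of a smaller symmetric type). Write `N v` for the norm of `v`. We show:

* the places at which at least two of the four `α_{v,i}` are unimodular have lower Dirichlet density at least
  `1 - R / 4` (three quarters for cuspidal `∧² π`, one half for `GSp_4`); more precisely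
  `∑ (√(∏_i (|α_{v,i}| + |α_{v,i}|⁻¹)) - 2)² (N v)^{-σ} ≤ R ∑_v (N v)^{-σ} + C`, the first sum being over the `v`
  without unimodular `α_{v,i}` (each of these terms is at least `4 (N v)^{-σ}`);
* the mean square of `max_i (|α_{v,i}| + |α_{v,i}|⁻¹) - 2` over the places is at most `1 + R / 4`, in the sense of
  Dirichlet series;
* so the Satake parameters are bounded at most places: with `T = x + 1/x` the places with `max_i |α_{v,i}| ≥ x`
  have upper density at most `1 / (T - 2)² + R / (2 T - 2)²`, which tends to `0` for `x → ∞`;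
* for `0 < δ < 1/2` there are at most `C X^{1 - 2 δ + ε}` places with `N v ≤ X` and `max_i |α_{v,i}| ≥ (N v)^δ`.

For `GL_2` and `GL_3` such statements follow at once from the Rankin-Selberg `L`-function of `π`. For `GL_4` this is
not enough: large Satake parameters can cancel in the trace.

The proof. Let `v` be a place at which `π_v` is not tempered. The parameters are either `a, 1/ā` and two
unimodular numbers, or two pairs `a, 1/ā, b, 1/b̄`. With `u = |a| + 1/|a|`, `w = |b| + 1/|b|`, the trace of `π_v` is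
at least `u - 2` in the first case, and in the second case the trace of `∧² π_v` is at least `u w - 2 ≥ 2`.
-/

set_option autoImplicit false

namespace Pool.Agent.Results.MP_08cfa9_nt.ExteriorSquareGL4

open NumberField IsDedekindDomain Pool.Agent.V1213.GF

open scoped Classical in
/-- **Satake parameters for `GL(4)` over a number field.** -/
theorem result {K : Type*} [Field K] [NumberField K] {S : Finset (HeightOneSpectrum (𝓞 K))}
    {α : Places S → Fin 4 → ℂ} {R : ℕ} (h : CuspidalGL4 α R) :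
    -- the places without unimodular Satake parameter
    (∃ C : ℝ, ∀ σ : ℝ, 1 < σ →
      (Summable fun v : Places S => (if ∀ i, ‖α v i‖ ≠ 1 then
        (Real.sqrt (∏ i, (‖α v i‖ + ‖α v i‖⁻¹)) - 2) ^ 2 else 0) * (nm v.1 : ℝ) ^ (-σ)) ∧
      ∑' v : Places S, (if ∀ i, ‖α v i‖ ≠ 1 then
        (Real.sqrt (∏ i, (‖α v i‖ + ‖α v i‖⁻¹)) - 2) ^ 2 else 0) * (nm v.1 : ℝ) ^ (-σ) ≤
        R * ∑' v : Places S, (nm v.1 : ℝ) ^ (-σ) + C) ∧
    (∀ v, (∀ i, ‖α v i‖ ≠ 1) → 4 ≤ Real.sqrt (∏ i, (‖α v i‖ + ‖α v i‖⁻¹))) ∧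
    -- the places with at least two unimodular Satake parameters
    (∃ C : ℝ, ∀ σ : ℝ, 1 < σ →
      (1 - (R : ℝ) / 4) * ∑' v : Places S, (nm v.1 : ℝ) ^ (-σ) - C ≤
        ∑' v : Places S, if ∃ i j, i ≠ j ∧ ‖α v i‖ = 1 ∧ ‖α v j‖ = 1 then (nm v.1 : ℝ) ^ (-σ) else 0) ∧
    -- the mean square
    (∃ C : ℝ, ∀ σ : ℝ, 1 < σ →
      (Summable fun v : Places S => (Finset.univ.sup' ⟨0, Finset.mem_univ 0⟩
        (fun i => ‖α v i‖ + ‖α v i‖⁻¹) - 2) ^ 2 * (nm v.1 : ℝ) ^ (-σ)) ∧
      ∑' v : Places S, (Finset.univ.sup' ⟨0, Finset.mem_univ 0⟩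
        (fun i => ‖α v i‖ + ‖α v i‖⁻¹) - 2) ^ 2 * (nm v.1 : ℝ) ^ (-σ) ≤
        (1 + (R : ℝ) / 4) * ∑' v : Places S, (nm v.1 : ℝ) ^ (-σ) + C) ∧
    -- the places with a large Satake parameter
    (∀ x : ℝ, 1 < x → ∃ C : ℝ, ∀ σ : ℝ, 1 < σ →
      ∑' v : Places S, (if ∃ i, x ≤ ‖α v i‖ then (nm v.1 : ℝ) ^ (-σ) else 0) ≤
        (1 / (x + x⁻¹ - 2) ^ 2 + R / (2 * (x + x⁻¹) - 2) ^ 2) * ∑' v : Places S, (nm v.1 : ℝ) ^ (-σ) + C) ∧
    -- the places with a polynomially large Satake parameter
    (∀ δ ε : ℝ, 0 < δ → δ < 1 / 2 → 0 < ε → ∃ C : ℝ, ∀ X : ℝ, 1 ≤ X →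
      (({v : Places S | (nm v.1 : ℝ) ≤ X ∧ ∃ i, (nm v.1 : ℝ) ^ δ ≤ ‖α v i‖}.ncard : ℕ) : ℝ) ≤
        C * X ^ (1 - 2 * δ + ε)) :=
  ⟨part1 h, fun v hv => (none_ext (h.uni v) hv).2, part2 h, part3 h, fun _ hx => part4 h hx,
    fun _ _ h1 h2 h3 => part5 h h1 h2 h3⟩

end Pool.Agent.Results.MP_08cfa9_nt.ExteriorSquareGL4
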