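import Mathlib
import Pool.Agent.H274.Iso3

/-!
# Generic cuspidal representations of classical groups: small traces at every scale

Let `G` be a quasi-split classical group over `ℚ` (`SO_{2m+1}`, `Sp_{2m}`, `SO_{2m}`) and let `π` be a globally
generic cuspidal representation of `G(𝔸)`. By Cogdell, Kim, Piatetski-Shapiro and Shahidi (and by Arthur) `π` has a
functorial lift `Π = Π_1 ⊞ ⋯ ⊞ Π_r` to `GL_n`, an isobaric sum of pairwise different self-dual unitary cuspidal
representations; it is cuspidal only if `r = 1`. The Satake parameters `α_{1,p}, …, α_{n,p}` of `π` (for the standard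
representation of the `L`-group) are those of `Π`. We show, for isobaric `Π` and, more generally, for finite families
`Π_t`, `t ∈ T`, of isobaric representations of `GL_{n_t}` over `ℚ` (this covers the groups `∏_t G_t`), with
`R = ∑ r_t`, `r_t` the order of the pole of `L(s, Π_t × Π_t~)` at `1`: for every `c < 1/2`, every `λ > 0` and **all**
large `X`,

  `∑_{X^{1-λ} ≤ p^k ≤ X} max(0, R - ∑_t |tr Π_{t,p}^k|²) ≥ X^c`,

where `tr Π_{t,p}^k = ∑_i α_{t,i,p}^k`; at least `X^c` primes `p ≤ X` satisfy `∑_t |tr Π_{t,p}^k|² < R` for some `k ≥ 1`.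
If the Ramanujan conjecture is violated, more is true: the same holds

* for `c < 2 |log_p |α_{t,i,p}||`, `p ∉ S`, and, more generally, for `c < x` if `x` is a real pole of the local factor of
  some `L(s, Π_t × Π_t~)` at some place `v ≤ ∞` (for tempered `Π_{t,v}` all poles have real part `≤ 0`);
* for `c < Re ρ` if `ρ` is a zero or a pole of `∏_t L(s, Π_t × Π_t~) / ζ(s)^R`.

For such exponents `c ≥ 1/2` the prime powers do not matter: the sum over the primes `p ∈ [X^{1-λ}, X]` is `≥ X^c`.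

The last part is an application to temperedness on products of groups `GL_2`: let `π_t` be cuspidal
representations of `GL_2` such that all Satake parameters of `Π_t` are `(a_{t,p} / b_{t,p})^e`, `e` in a symmetric
family of `n_t` integers, `a_{t,p}`, `b_{t,p}` the Satake parameters of `π_t`. If `R ≤ n_t²` for all `t`, then for all
large `X` at least `X^c` primes `p ≤ X` are such that all `π_{t,p}` are tempered. Examples: `|T| ≤ 9`,
`Π_t = Ad π_t`; `|T| ≤ 10`, `Π_t = 1 ⊞ 3 Ad π_t`; `|T| ≤ 35`, `Π_t = 1 ⊞ 3 Ad π_t ⊞ 5 A⁴ π_t`, `A⁴ = Sym⁴ ⊗ ω^{-2}`, if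
`Sym⁴ π_t` is cuspidal (Kim, Shahidi). If `R < n_t²` (fewer than `35` representations in the last example), a positive
proportion of the primes has this property, by the argument of Kim and Shahidi (density `34/35` for one representation);
this argument gives nothing in the limiting cases `R = n_t²`.

`MP_08cfa9_nt.TemperedEveryScale` is the case of one cuspidal `Π` (`|T| = 1`, `r = 1`). For `r > 1` the quotient
`L(s, Π × Π~) / ζ(s)` has a pole, and `L(s, Π × Π~) / ζ(s)^r` is used here.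

The structure `IsobaricRep` lists what is used of `Π`; all of it is known for the isobaric sums of unitary cuspidal
representations `Π_i` such that `Π_i ≅ Π_j ⊗ |det|^{iu}` only for `u = 0` (for the lifts from classical groups this holds,
as the `Π_i` are self-dual): the local components are unitary; the Rankin-Selberg series converges absolutely for
`Re s > 1`; `L(s, Π × Π~)` is entire except for a pole of order `r` at `s = 1`, of polynomial growth in vertical strips,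
and it satisfies the functional equation, with Euler factors of degree `n²` at the primes of `S`, and with `Γ_ℝ(s)`
occurring `r` times in the Gamma factor (once for every pair `Π_i ≅ Π_j`).
-/

set_option autoImplicit false

namespace Pool.Agent.Results.MP_08cfa9_nt.IsobaricEveryScale

open Pool.Agent.W189.TP (PS)
open Pool.Agent.H274.Iso (IsobaricRep AdmT)

open scoped Classical in
/-- **Small traces of isobaric representations at every scale.** -/
theorem result {T : Type*} [Fintype T] [Nonempty T] {n r : T → ℕ} {S : Finset Nat.Primes}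
    {α : ∀ t, PS S → Fin (n t) → ℂ} {β : ∀ t, Nat.Primes → Fin (n t ^ 2) → ℂ}
    {κ : ∀ t, Fin (n t ^ 2 - r t) → ℂ} (h : ∀ t, IsobaricRep (r t) S (α t) (β t) (κ t))
    (hr : ∀ t, 1 ≤ r t) (hn : ∀ t, r t < n t ^ 2) {c lam : ℝ} (hc : AdmT r S α β κ c) (hlam : 0 < lam) :
    (∃ X₀ : ℝ, ∀ X : ℝ, X₀ ≤ X → X ^ c ≤ ∑' x : PS S × ℕ,
      if X ^ (1 - lam) ≤ ((x.1.1 : ℕ) : ℝ) ^ (x.2 + 1) ∧ ((x.1.1 : ℕ) : ℝ) ^ (x.2 + 1) ≤ X then
        max 0 (((∑ t, r t : ℕ) : ℝ) - ∑ t, ‖∑ i, α t x.1 i ^ (x.2 + 1)‖ ^ 2) else 0) ∧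
    (1 / 2 ≤ c → ∃ X₀ : ℝ, ∀ X : ℝ, X₀ ≤ X → X ^ c ≤ ∑' p : PS S,
      if X ^ (1 - lam) ≤ ((p.1 : ℕ) : ℝ) ∧ ((p.1 : ℕ) : ℝ) ≤ X then
        max 0 (((∑ t, r t : ℕ) : ℝ) - ∑ t, ‖∑ i, α t p i‖ ^ 2) else 0) ∧
    (∃ X₀ : ℝ, ∀ X : ℝ, X₀ ≤ X → X ^ c ≤ (({p : PS S | ((p.1 : ℕ) : ℝ) ≤ X ∧
      ∃ k : ℕ, 1 ≤ k ∧ ∑ t, ‖∑ i, α t p i ^ k‖ ^ 2 < ((∑ t, r t : ℕ) : ℝ)}.ncard : ℕ) : ℝ)) ∧
    (∀ (a : T → PS S → Fin 2 → ℂ) (e : ∀ t, Fin (n t) → ℤ), (∀ t p i, a t p i ≠ 0) →
      (∀ t p, ∃ τ : Equiv.Perm (Fin 2), ∀ i, a t p (τ i) = ((starRingEnd ℂ) (a t p i))⁻¹) →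
      (∀ t, ∃ σ : Equiv.Perm (Fin (n t)), ∀ i, e t (σ i) = -e t i) →
      (∀ t p i, α t p i = (a t p 0 / a t p 1) ^ e t i) → (∀ t, ∑ t', r t' ≤ n t ^ 2) →
      ∃ X₀ : ℝ, ∀ X : ℝ, X₀ ≤ X → X ^ c ≤
        (({p : PS S | ((p.1 : ℕ) : ℝ) ≤ X ∧ ∀ t i, ‖a t p i‖ = 1}.ncard : ℕ) : ℝ)) := by
  have hR : 1 ≤ ∑ t, r t := by
    obtain ⟨t⟩ := ‹Nonempty T›
    exact (hr t).trans (Finset.single_le_sum (f := r) (fun _ _ => Nat.zero_le _) (Finset.mem_univ t))
  obtain ⟨h1, h2, h3⟩ := Pool.Agent.H274.Iso.fin_r hR (W := Pool.Agent.H274.Iso.WT α)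
    (fun x => Finset.sum_nonneg fun t _ => by positivity) (Pool.Agent.H274.Iso.fam_key h hn hc hlam)
  refine ⟨Filter.eventually_atTop.1 h1, fun hc2 => ?_, ?_, fun a e ha0 haU he hα hRn => ?_⟩
  · obtain ⟨X₀, hX⟩ := Filter.eventually_atTop.1 (h2 hc2)
    refine ⟨X₀, fun X hX1 => (hX X hX1).trans (le_of_eq (tsum_congr fun p => ?_))⟩
    simp only [Pool.Agent.H274.Iso.WT, zero_add, pow_one]
  · exact Filter.eventually_atTop.1 (h3 _ fun p k hk => ⟨k + 1, by omega, hk⟩)
  · refine Filter.eventually_atTop.1 (h3 (fun p => ∀ t i, ‖a t p i‖ = 1) fun p k hk => ?_)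
    intro t
    rcases Pool.Agent.H274.Iso.temp_gl2 (ha0 t p) (haU t p) with h4 | ⟨x, hx, hax⟩
    · exact h4
    · exfalso
      obtain ⟨σ, hσ⟩ := he t
      have h5 : ∑ i, α t p i ^ (k + 1) = ((∑ i, (x ^ (k + 1)) ^ e t i : ℝ) : ℂ) := by
        rw [Complex.ofReal_sum]
        refine Finset.sum_congr rfl fun i _ => ?_
        rw [hα, hax]
        push_cast
        rw [← zpow_natCast, ← zpow_mul, mul_comm, zpow_mul, zpow_natCast]
      have h6 := Pool.Agent.H274.Iso.sym_ge (x := x ^ (k + 1)) (pow_pos hx _) (e := e t) σ hσ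
      have h7 : (n t : ℝ) ^ 2 ≤ ‖∑ i, α t p i ^ (k + 1)‖ ^ 2 := by
        rw [h5, Complex.norm_real, Real.norm_eq_abs, sq_abs]
        exact pow_le_pow_left₀ (Nat.cast_nonneg _) h6 2
      have h8 : ‖∑ i, α t p i ^ (k + 1)‖ ^ 2 ≤ Pool.Agent.H274.Iso.WT α (p, k) :=
        Finset.single_le_sum (f := fun t => ‖∑ i, α t p i ^ (k + 1)‖ ^ 2) (fun _ _ => by positivity)
          (Finset.mem_univ t)
      have h9 : ((∑ t', r t' : ℕ) : ℝ) ≤ (n t : ℝ) ^ 2 := by exact_mod_cast hRn t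
      linarith

end Pool.Agent.Results.MP_08cfa9_nt.IsobaricEveryScale
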