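import Mathlib
import Pool.Agent.V1158.RP.Sym
import Pool.Agent.V1158.RP.LogWin

/-!
# Generic representations: the Ramanujan conjecture up to powers of `log N v` in windows of logarithmic length

Let `Π_j` be countably many (for example all) globally generic unitary cuspidal representations of quasi-split groups
`G_j` over number fields `K_j`, with parameters `α_{v,1}, …, α_{v,n}` at the unramified places `v` (through a fixed
`n`-dimensional representation `r` of the `L`-group) and with automorphic transfer for the exterior powers of `r` of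
degree `k ≤ n / 2`: for example `GL_n`, `n ≤ 4` (`k = 2` is due to Kim), `SO_4`, `SO_5` and `GSp_4` (which transfer to
`GL_4`), and unitary groups in `n ≤ 4` variables (after base change). Let `u_m ≥ 1` be a lacunary sequence, for example
`u_m = b ^ m`. For almost every `a > 0`, all `j`, `A ≥ 0` and `ε > 0`, and all large `m`, ALL finite places `v`
(unramified for `Π_j`) with `|N v - a u_m| ≤ (log N v) ^ A` satisfy
`(log N v) ^ (-(A / 2 + ε)) < |α_{v,i}| < (log N v) ^ (A / 2 + ε)`. For `n = 2` the same holds with `A / 8` in place of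
`A / 2`. So the exponents `θ_v = max_i |log |α_{v,i}| / log N v|` tend to `0` along all the places in the windows, while
the exponents which are known for all places are `7/64` for `GL_2`, `5/14` for `GL_3` and `9/22` for `GL_4`.

The proof: if a parameter at `v` is large, then so is one of the traces of the exterior powers of degree `≤ n / 2` (for
`n = 2`: the trace of the symmetric fourth power is at least `|α|^4`), since the parameters off the unit circle come in
pairs. The Rankin-Selberg bound shows that the series of `f(v) / (N v (log N v) ^ ε)`, `f(v)` the square of such a trace,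
converges, and the theorem follows from the Borel-Cantelli lemma.
-/

set_option autoImplicit false

namespace Pool.Agent.Results.MP_08cfa9_nt.RamanujanUpToLogarithms

open NumberField IsDedekindDomain Filter MeasureTheory Pool.Agent.V1158.RP

/-- the norm of a finite place -/
noncomputable def nm {K : Type} [Field K] [NumberField K] (v : HeightOneSpectrum (𝓞 K)) : ℝ :=
  (Ideal.absNorm v.asIdeal : ℝ)

/-- What the Rankin-Selberg method gives for an isobaric sum `P` of unitary cuspidal representations of general linear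
groups over `K` with traces of the Satake parameters of absolute value `f v` at the places `v` outside of the finite set
`bad`: the series `∑_v f(v)² (N v)^(-s)` converges for `s > 1`, and it is at most `C (1 + log (1 / (s - 1)))` for
`1 < s ≤ 2`, since `L(s, P × P~)` has a pole of finite order at `s = 1`. -/
def RankinSelberg {K : Type} [Field K] [NumberField K] (bad : Finset (HeightOneSpectrum (𝓞 K)))
    (f : HeightOneSpectrum (𝓞 K) → ℝ) : Prop :=
  ∃ C : ℝ, ∀ s : ℝ, 1 < s → s ≤ 2 →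
    Summable (fun v : {v : HeightOneSpectrum (𝓞 K) // v ∉ bad} => f v.1 ^ 2 * nm v.1 ^ (-s)) ∧
    ∑' v : {v : HeightOneSpectrum (𝓞 K) // v ∉ bad}, f v.1 ^ 2 * nm v.1 ^ (-s) ≤ C * (1 + Real.log (1 / (s - 1)))

/-- The parameters `α_{v,i}` of a globally generic unitary cuspidal representation `Π` of a quasi-split group `G` over
`K` at the finite places outside of the finite set `bad`, through an `n`-dimensional representation `r` of the `L`-group,
and what is used of them: the local components are unitary, so that the parameters at `v` are permuted by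
`x ↦ 1 / conj x`; and the Rankin-Selberg bound for the exterior powers of `r` of degree `k`, `1 ≤ k ≤ n / 2`. The latter
is known if `r` transfers `Π` to an isobaric sum of unitary cuspidal representations and `n ≤ 4`: for `k = 1` it is due
to Jacquet, Piatetski-Shapiro and Shalika, for `k = 2` it follows from the automorphy of the exterior square of `GL_4`
(Kim) and of the products `GL_2 × GL_2` (Ramakrishnan). -/
structure Rep (K : Type) [Field K] [NumberField K] (n : ℕ) where
  bad : Finset (HeightOneSpectrum (𝓞 K))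
  α : HeightOneSpectrum (𝓞 K) → Fin n → ℂ
  unitary : ∀ v ∉ bad, ∃ σ : Equiv.Perm (Fin n), ∀ i, α v (σ i) * (starRingEnd ℂ) (α v i) = 1
  exterior : ∀ k : ℕ, 1 ≤ k → k ≤ n / 2 → RankinSelberg bad fun v =>
    ‖∑ S ∈ (Finset.univ : Finset (Fin n)).powersetCard k, ∏ i ∈ S, α v i‖

/-- The same for `n = 2` (`G = GL_2`, `SO_3`, or a unitary group in two variables after base change), with the
Rankin-Selberg bound for the symmetric fourth power, which is automorphic (Kim). -/
structure RepTwo (K : Type) [Field K] [NumberField K] extends Rep K 2 where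
  symFour : RankinSelberg bad fun v => ‖∑ k ∈ Finset.range 5, α v 0 ^ k * α v 1 ^ (4 - k)‖

/-- all the parameters at the place `v` are between `(log N v)^(-e)` and `(log N v)^e` in modulus -/
def Near {K : Type} [Field K] [NumberField K] {n : ℕ} (π : Rep K n) (v : HeightOneSpectrum (𝓞 K)) (e : ℝ) : Prop :=
  ∀ i, Real.log (nm v) ^ (-e) < ‖π.α v i‖ ∧ ‖π.α v i‖ < Real.log (nm v) ^ e

/-- For almost every `a > 0`, all members `π_j`, `A ≥ 0`, `ε > 0` and all large `m`: all places `v` of the field of `π_j`,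
outside of its bad places, with `|N v - a u_m| ≤ (log N v)^A` are near with the exponent `A / c + ε`. -/
def Law {J : Type} (K : J → Type) [∀ j, Field (K j)] [∀ j, NumberField (K j)] (n : J → ℕ)
    (π : ∀ j, Rep (K j) (n j)) (u : ℕ → ℝ) (c : ℝ) : Prop :=
  ∀ᵐ a : ℝ, 0 < a → ∀ (j : J) (A ε : ℝ), 0 ≤ A → 0 < ε → ∀ᶠ m in atTop, ∀ v : HeightOneSpectrum (𝓞 (K j)),
    v ∉ (π j).bad → |nm v - a * u m| ≤ Real.log (nm v) ^ A → Near (π j) v (A / c + ε)

section
variable {K : Type} [Field K] [NumberField K] {n : ℕ}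

lemma two_le_nm (v : HeightOneSpectrum (𝓞 K)) : 2 ≤ nm v := by
  unfold nm
  have h1 : Ideal.absNorm v.asIdeal ≠ 1 := by
    rw [Ne, Ideal.absNorm_eq_one_iff]
    exact v.isPrime.ne_top
  have h0 : Ideal.absNorm v.asIdeal ≠ 0 := by
    rw [Ne, Ideal.absNorm_eq_zero_iff]
    exact v.ne_bot
  exact_mod_cast (by omega : 2 ≤ Ideal.absNorm v.asIdeal)

lemma countable_places : Countable (HeightOneSpectrum (𝓞 K)) := by
  have h1 : ∀ n : ℕ, {I : Ideal (𝓞 K) | Ideal.absNorm I = n}.Finite := fun n => Ideal.finite_setOfPred_absNorm_eq n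
  have h2 : Countable (Ideal (𝓞 K)) := by
    rw [← Set.countable_univ_iff]
    have : (Set.univ : Set (Ideal (𝓞 K))) = ⋃ n : ℕ, {I : Ideal (𝓞 K) | Ideal.absNorm I = n} := by
      ext I
      simp
    rw [this]
    exact Set.countable_iUnion fun n => (h1 n).countable
  refine Function.Injective.countable (f := fun v : HeightOneSpectrum (𝓞 K) => v.asIdeal) ?_
  intro v w hvw
  exact HeightOneSpectrum.ext hvw

/-- only the upper bound has to be proved -/
lemma near_of_upper (π : Rep K n) {v : HeightOneSpectrum (𝓞 K)} (hv : v ∉ π.bad) {e : ℝ}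
    (h : ∀ i, ‖π.α v i‖ < Real.log (nm v) ^ e) : Near π v e := by
  intro i
  refine ⟨?_, h i⟩
  have hlog : 0 < Real.log (nm v) := Real.log_pos (by linarith [two_le_nm v])
  obtain ⟨σ, hσ⟩ := π.unitary v hv
  have hU : Unit1 (π.α v) := ⟨σ, hσ⟩
  have h3 : ‖π.α v (σ i)‖ * ‖π.α v i‖ = 1 := by
    have := congrArg norm (hσ i)
    rwa [norm_mul, RCLike.norm_conj, norm_one] at this
  have hpos : 0 < ‖π.α v i‖ := norm_pos_iff.2 (hU.ne i)
  have h4 := h (σ i)
  rw [eq_inv_of_mul_eq_one_left h3] at h4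
  rw [Real.rpow_neg hlog.le]
  exact inv_lt_of_inv_lt₀ hpos h4

/-- the trace of the symmetric fourth power at a non-tempered place -/
lemma sym_large (π : Rep K 2) {v : HeightOneSpectrum (𝓞 K)} (hv : v ∉ π.bad) {M : ℝ} (hM : 1 < M) {i : Fin 2}
    (hi : M ≤ ‖π.α v i‖) : M ^ 4 ≤ ‖∑ k ∈ Finset.range 5, π.α v 0 ^ k * π.α v 1 ^ (4 - k)‖ := by
  obtain ⟨σ, hσ⟩ := π.unitary v hv
  have hU : Unit1 (π.α v) := ⟨σ, hσ⟩
  set x := π.α v 0 with hx
  set y := π.α v 1 with hy
  have hx0 : x ≠ 0 := hU.ne 0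
  have hy0 : y ≠ 0 := hU.ne 1
  have hxp : 0 < ‖x‖ := norm_pos_iff.2 hx0
  have hM0 : 0 ≤ M := by linarith
  -- the two parameters are exchanged
  have hexch : y * (starRingEnd ℂ) x = 1 := by
    rcases Fin.exists_fin_two.1 ⟨σ 0, rfl⟩ with h | h
    · exfalso
      have h1 := hσ 0
      rw [h] at h1
      have h2 := hσ 1
      have h3 : σ 1 = 1 := by
        rcases Fin.exists_fin_two.1 ⟨σ 1, rfl⟩ with h' | h'
        · exact absurd (σ.injective (h.trans h'.symm)) (by decide)
        · exact h'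
      rw [h3] at h2
      have h4 : ‖x‖ * ‖x‖ = 1 := by
        have := congrArg norm h1
        rwa [norm_mul, RCLike.norm_conj, norm_one] at this
      have h5 : ‖y‖ * ‖y‖ = 1 := by
        have := congrArg norm h2
        rwa [norm_mul, RCLike.norm_conj, norm_one] at this
      fin_cases i
      · have h6 : M ≤ ‖x‖ := hi
        nlinarith
      · have h6 : M ≤ ‖y‖ := hi
        nlinarith
    · have h1 := hσ 0
      rw [h] at h1
      exact h1
  set r : ℝ := ‖x‖ with hr
  have hr0 : r ≠ 0 := hxp.ne'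
  have hrC : (r : ℂ) ≠ 0 := by exact_mod_cast hr0
  -- `x = r w`, `y = w / r`
  obtain ⟨w, hw, hwx⟩ : ∃ w : ℂ, ‖w‖ = 1 ∧ x = r * w := by
    refine ⟨x / r, ?_, by field_simp⟩
    rw [norm_div, Complex.norm_real, Real.norm_of_nonneg hxp.le]
    exact div_self hr0
  have hww : w * (starRingEnd ℂ) w = 1 := by
    rw [Complex.mul_conj, Complex.normSq_eq_norm_sq, hw]
    norm_num
  have hwy : y = (r : ℂ)⁻¹ * w := by
    have hcw : (starRingEnd ℂ) w ≠ 0 := by
      intro h0
      rw [h0, mul_zero] at hww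
      exact zero_ne_one hww
    rw [hwx, map_mul, Complex.conj_ofReal] at hexch
    have h7 : y * r * (starRingEnd ℂ) w = w * (starRingEnd ℂ) w := by
      rw [hww, ← hexch]
      ring
    have h8 : y * r = w := mul_right_cancel₀ hcw h7
    rw [← h8]
    field_simp
  have hsum : ∑ k ∈ Finset.range 5, x ^ k * y ^ (4 - k) =
      w ^ 4 * (((r⁻¹) ^ 4 + r⁻¹ ^ 2 + 1 + r ^ 2 + r ^ 4 : ℝ) : ℂ) := by
    rw [hwx, hwy]
    simp only [Finset.sum_range_succ, Finset.sum_range_zero]
    push_cast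
    field_simp
    ring
  rw [hsum, norm_mul, norm_pow, hw, one_pow, one_mul, Complex.norm_real, Real.norm_eq_abs]
  have hpos1 : 0 ≤ r⁻¹ ^ 2 := by positivity
  have hpos2 : 0 ≤ r ^ 2 := by positivity
  have hpos3 : 0 ≤ r⁻¹ ^ 4 := by positivity
  have hpos4 : 0 ≤ r ^ 4 := by positivity
  rw [abs_of_nonneg (by positivity)]
  fin_cases i
  · have h1 : M ≤ r := hi
    have h2 : M ^ 4 ≤ r ^ 4 := pow_le_pow_left₀ hM0 h1 4
    linarith
  · have h1 : M ≤ r⁻¹ := by
      have h2 : M ≤ ‖y‖ := hi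
      rwa [hwy, norm_mul, norm_inv, Complex.norm_real, Real.norm_of_nonneg hxp.le, hw, mul_one] at h2
    have h2 : M ^ 4 ≤ r⁻¹ ^ 4 := pow_le_pow_left₀ hM0 h1 4
    linarith

/-- the places outside of `bad` -/
abbrev Good (bad : Finset (HeightOneSpectrum (𝓞 K))) : Type := {v : HeightOneSpectrum (𝓞 K) // v ∉ bad}

/-- the norm on the places outside of `bad` -/
noncomputable def nmG (bad : Finset (HeightOneSpectrum (𝓞 K))) (v : Good bad) : ℝ := nm v.1

/-- windows for one function -/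
lemma one_f {bad : Finset (HeightOneSpectrum (𝓞 K))} {f : HeightOneSpectrum (𝓞 K) → ℝ} (h : RankinSelberg bad f)
    {u : ℕ → ℝ} {b : ℝ} (hu : Lac u b) :
    ∀ᵐ a : ℝ, 0 < a → ∀ A ε : ℝ, 0 ≤ A → 0 < ε → ∀ᶠ m in atTop, ∀ v : HeightOneSpectrum (𝓞 K), v ∉ bad →
      |nm v - a * u m| ≤ Real.log (nm v) ^ A → f v ^ 2 < Real.log (nm v) ^ (A + ε) := by
  have hc : Countable (HeightOneSpectrum (𝓞 K)) := countable_places
  have h1 : ∀ t : Good bad, 2 ≤ nmG bad t := fun t => two_le_nm t.1
  have h2 : ∀ t : Good bad, 0 ≤ (fun t : Good bad => f t.1 ^ 2) t := fun t => sq_nonneg _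
  have h3 : RS (T := Good bad) (nmG bad) (fun t => f t.1 ^ 2) := h
  have h4 := ae_windows (T := Good bad) (nmG bad) h1 (fun t => f t.1 ^ 2) h2 h3 hu
  filter_upwards [h4] with a ha ha0 A ε hA hε
  filter_upwards [ha ha0 A ε hA hε] with m hm v hv hwin
  exact hm ⟨v, hv⟩ hwin

/-- the places in the windows are large -/
lemma large_f {u : ℕ → ℝ} {b : ℝ} (hu : Lac u b) {A a : ℝ} (hA : 0 ≤ A) (ha : 0 < a) (H : ℝ) :
    ∀ᶠ m in atTop, ∀ v : HeightOneSpectrum (𝓞 K), |nm v - a * u m| ≤ Real.log (nm v) ^ A → H ≤ nm v :=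
  large_of_window (T := HeightOneSpectrum (𝓞 K)) nm two_le_nm hu hA ha H

/-- `GL_2`, one place -/
lemma near_two (π : Rep K 2) {v : HeightOneSpectrum (𝓞 K)} (hv : v ∉ π.bad) {A ε : ℝ} (hA : 0 ≤ A) (hε : 0 < ε)
    (hN3 : 3 ≤ nm v)
    (h5 : ‖∑ k ∈ Finset.range 5, π.α v 0 ^ k * π.α v 1 ^ (4 - k)‖ ^ 2 < Real.log (nm v) ^ (A + 8 * ε)) :
    Near π v (A / 8 + ε) := by
  apply near_of_upper π hv
  intro i
  by_contra hcon
  rw [not_lt] at hcon
  have hlog1 : 1 < Real.log (nm v) := by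
    rw [Real.lt_log_iff_exp_lt (by linarith)]
    have := Real.exp_one_lt_d9
    linarith
  generalize hL : Real.log (nm v) = L at *
  have hM1 : 1 < L ^ (A / 8 + ε) := Real.one_lt_rpow hlog1 (by positivity)
  have h3 := sym_large π hv hM1 hcon
  generalize hS : ‖∑ k ∈ Finset.range 5, π.α v 0 ^ k * π.α v 1 ^ (4 - k)‖ = S at *
  have h0 : 0 ≤ (L ^ (A / 8 + ε)) ^ 4 := by positivity
  have h4 := pow_le_pow_left₀ h0 h3 2
  have h6 : L ^ (A + 8 * ε) = ((L ^ (A / 8 + ε)) ^ 4) ^ 2 := by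
    rw [← pow_mul, ← Real.rpow_natCast (L ^ (A / 8 + ε)), ← Real.rpow_mul (by linarith)]
    congr 1
    norm_num
    ring
  rw [h6] at h5
  exact absurd h4 (not_le.2 h5)

/-- `GL_n`, one place -/
lemma near_n (π : Rep K n) {v : HeightOneSpectrum (𝓞 K)} (hv : v ∉ π.bad) {A ε : ℝ} (hA : 0 ≤ A) (hε : 0 < ε)
    (hN3 : 3 ≤ nm v) (hbig : 4 * (n : ℝ) ^ 2 + 4 ≤ Real.log (nm v) ^ ε)
    (h5 : ∀ k ∈ Finset.Icc 1 (n / 2), ‖esym (π.α v) k‖ ^ 2 < Real.log (nm v) ^ (A + ε)) :
    Near π v (A / 2 + ε) := by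
  apply near_of_upper π hv
  intro i
  by_contra hcon
  rw [not_lt] at hcon
  have hlog1 : 1 ≤ Real.log (nm v) := by
    rw [Real.le_log_iff_exp_le (by linarith)]
    have := Real.exp_one_lt_d9
    linarith
  generalize hL : Real.log (nm v) = L at *
  have hlog0 : 0 < L := by linarith
  have hM2 : (L ^ (A / 2 + ε)) ^ 2 = L ^ (A + ε) * L ^ ε := by
    rw [← Real.rpow_natCast, ← Real.rpow_mul hlog0.le, ← Real.rpow_add hlog0]
    congr 1
    push_cast
    ring
  have hone : 1 ≤ L ^ (A + ε) := Real.one_le_rpow hlog1 (by positivity)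
  have hMpos : 0 < L ^ (A / 2 + ε) := Real.rpow_pos_of_pos hlog0 _
  generalize L ^ (A / 2 + ε) = M at *
  generalize L ^ (A + ε) = P at *
  generalize L ^ ε = Q at *
  have hn0 : 0 < n := by
    rcases Nat.eq_zero_or_pos n with h0 | h0
    · subst h0
      exact i.elim0
    · exact h0
  have hnR : (0 : ℝ) < n := by exact_mod_cast hn0
  have hM4 : 2 ≤ M := by
    have h6 : 4 ≤ M ^ 2 := by
      rw [hM2]
      have h7 : (4 : ℝ) ≤ Q := by nlinarith
      nlinarith
    nlinarith
  have hU : Unit1 (π.α v) := π.unitary v hv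
  obtain ⟨k, hk1, hk2⟩ := exists_large hU hM4 hcon
  have h8 := h5 k hk1
  have h0 : 0 ≤ M / (2 * n) := by positivity
  have h9 : (M / (2 * n)) ^ 2 ≤ ‖esym (π.α v) k‖ ^ 2 := pow_le_pow_left₀ h0 hk2 2
  have h10 : P ≤ (M / (2 * n)) ^ 2 := by
    rw [div_pow, hM2, le_div_iff₀ (by positivity)]
    refine mul_le_mul_of_nonneg_left ?_ (by positivity)
    nlinarith
  exact absurd (h10.trans h9) (not_le.2 h8)

/-- one representation of `GL_2` -/
lemma one_two (π : RepTwo K) {u : ℕ → ℝ} {b : ℝ} (hu : Lac u b) :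
    ∀ᵐ a : ℝ, 0 < a → ∀ A ε : ℝ, 0 ≤ A → 0 < ε → ∀ᶠ m in atTop, ∀ v : HeightOneSpectrum (𝓞 K),
      v ∉ π.bad → |nm v - a * u m| ≤ Real.log (nm v) ^ A → Near π.toRep v (A / 8 + ε) := by
  have h0 := one_f π.symFour hu
  filter_upwards [h0] with a ha ha0 A ε hA hε
  have h1 := ha ha0 A (8 * ε) hA (by linarith)
  have h2 := large_f (K := K) hu hA ha0 3
  filter_upwards [h1, h2] with m hm1 hm2 v hv hwin
  exact near_two π.toRep hv hA hε (hm2 v hwin) (hm1 v hv hwin)

/-- one representation of `GL_n` -/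
lemma one_n (π : Rep K n) {u : ℕ → ℝ} {b : ℝ} (hu : Lac u b) :
    ∀ᵐ a : ℝ, 0 < a → ∀ A ε : ℝ, 0 ≤ A → 0 < ε → ∀ᶠ m in atTop, ∀ v : HeightOneSpectrum (𝓞 K),
      v ∉ π.bad → |nm v - a * u m| ≤ Real.log (nm v) ^ A → Near π v (A / 2 + ε) := by
  have hk : ∀ k : ℕ, ∀ᵐ a : ℝ, 1 ≤ k → k ≤ n / 2 → 0 < a → ∀ A ε : ℝ, 0 ≤ A → 0 < ε → ∀ᶠ m in atTop,
      ∀ v : HeightOneSpectrum (𝓞 K), v ∉ π.bad → |nm v - a * u m| ≤ Real.log (nm v) ^ A →
        ‖esym (π.α v) k‖ ^ 2 < Real.log (nm v) ^ (A + ε) := by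
    intro k
    by_cases h : 1 ≤ k ∧ k ≤ n / 2
    · have h0 : RankinSelberg π.bad fun v => ‖esym (π.α v) k‖ := π.exterior k h.1 h.2
      filter_upwards [one_f h0 hu] with a ha _ _
      exact ha
    · exact Filter.Eventually.of_forall fun a h1 h2 => absurd ⟨h1, h2⟩ h
  rw [← ae_all_iff] at hk
  filter_upwards [hk] with a ha ha0 A ε hA hε
  have h1 : ∀ᶠ m in atTop, ∀ k ∈ Finset.Icc 1 (n / 2), ∀ v : HeightOneSpectrum (𝓞 K), v ∉ π.bad →
      |nm v - a * u m| ≤ Real.log (nm v) ^ A → ‖esym (π.α v) k‖ ^ 2 < Real.log (nm v) ^ (A + ε) := by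
    rw [Filter.eventually_all_finset]
    intro k hk
    rw [Finset.mem_Icc] at hk
    exact ha k hk.1 hk.2 ha0 A ε hA hε
  -- the place is so large that `log ^ ε` beats the constants
  obtain ⟨H, hH3, hH⟩ : ∃ H : ℝ, 3 ≤ H ∧ ∀ x : ℝ, H ≤ x → 4 * (n : ℝ) ^ 2 + 4 ≤ Real.log x ^ ε := by
    have h5 : Tendsto (fun x : ℝ => Real.log x ^ ε) atTop atTop :=
      (tendsto_rpow_atTop hε).comp Real.tendsto_log_atTop
    obtain ⟨H, hH⟩ := eventually_atTop.1 (h5.eventually_ge_atTop (4 * (n : ℝ) ^ 2 + 4))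
    exact ⟨max H 3, le_max_right _ _, fun x hx => hH x ((le_max_left _ _).trans hx)⟩
  have h2 := large_f (K := K) hu hA ha0 H
  filter_upwards [h1, h2] with m hm1 hm2 v hv hwin
  have hNH := hm2 v hwin
  exact near_n π hv hA hε (hH3.trans hNH) (hH _ hNH) (fun k hk => hm1 k hk v hv hwin)

end

/-- **Theorem.** `Law` holds with `c = 2` for countably many generic representations with parameters in dimension `n ≤ 4`
(for larger `n` if the exterior powers up to the middle satisfy the Rankin-Selberg bounds), and with `c = 8` for `n = 2`,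
for all sequences `u_m ≥ 1` with `u_(m+1) ≥ b u_m`, `b > 1`. -/
theorem result {J : Type} [Countable J] (K : J → Type) [∀ j, Field (K j)] [∀ j, NumberField (K j)] (u : ℕ → ℝ) (b : ℝ)
    (hb : 1 < b) (hu1 : ∀ m, 1 ≤ u m) (hu : ∀ m, b * u m ≤ u (m + 1)) :
    (∀ π : ∀ j, RepTwo (K j), Law K (fun _ => 2) (fun j => (π j).toRep) u 8) ∧
    (∀ (n : J → ℕ) (π : ∀ j, Rep (K j) (n j)), Law K n π u 2) := by
  have hL : Lac u b := ⟨hb, hu1, hu⟩
  constructor
  · intro π
    have h1 : ∀ j, ∀ᵐ a : ℝ, 0 < a → ∀ A ε : ℝ, 0 ≤ A → 0 < ε → ∀ᶠ m in atTop, ∀ v : HeightOneSpectrum (𝓞 (K j)),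
      v ∉ (π j).bad → |nm v - a * u m| ≤ Real.log (nm v) ^ A → Near (π j).toRep v (A / 8 + ε) :=
      fun j => one_two (π j) hL
    rw [← ae_all_iff] at h1
    filter_upwards [h1] with a ha ha0 j
    exact ha j ha0
  · intro n π
    have h1 : ∀ j, ∀ᵐ a : ℝ, 0 < a → ∀ A ε : ℝ, 0 ≤ A → 0 < ε → ∀ᶠ m in atTop, ∀ v : HeightOneSpectrum (𝓞 (K j)),
      v ∉ (π j).bad → |nm v - a * u m| ≤ Real.log (nm v) ^ A → Near (π j) v (A / 2 + ε) :=
      fun j => one_n (π j) hL
    rw [← ae_all_iff] at h1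
    filter_upwards [h1] with a ha ha0 j
    exact ha j ha0

end Pool.Agent.Results.MP_08cfa9_nt.RamanujanUpToLogarithms
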